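import Pool.Agent.H84R7.Asm

set_option autoImplicit false

namespace Pool.Agent.H84R7

open Encodable Classical Set
open Pool.Agent.H84R6 hiding rr rr_inj rr_EE rr_zz meas_rr rp meas_rp rp_inj rinv_ex psi psi_inj psi_E0 psi_not psi_zz zz meas_psi Req codes cc cc_spec PP C0 C1 wrd wrd_mem wrd_congr C_len C_pos C_ne blk_len wrd_len wrd_ge wrd_le ex_psi psi_tail psi_Req psi_blk fr force1 force2 Req_mono Req_dense all_req zz_ne

/-! ### the explicit Baire class one map -/

def good (N : ℕ) (u v : Sq) : Prop := (∀ i, N ≤ i → u i = v i) ∧ S u N = S v N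

theorem good_mono {N M : ℕ} {u v : Sq} (h : good N u v) (hM : N ≤ M) : good M u v :=
  ⟨fun i hi => h.1 i (le_trans hM hi), S_shift h.1 h.2 hM⟩

def valid (w : List ℕ) (x : Ca) : Prop :=
  0 < w.length ∧ good w.length (rep w.length w (jj x)) (jj x) ∧
    ¬ good (w.length - 1) (rep w.length w (jj x)) (jj x)

def wd (t : ℕ) : List ℕ := Denumerable.ofNat (List ℕ) t

theorem rep_congr {n N : ℕ} {w : List ℕ} {u v : Sq} (h : agr N u v) :
    agr N (rep n w u) (rep n w v) := by
  intro i hi
  unfold rep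
  split_ifs
  · rfl
  · exact h i hi

theorem good_rep_iff {n M : ℕ} {w : List ℕ} {u v : Sq} (hM : M ≤ n) (h : agr n u v) :
    good M (rep n w u) u → good M (rep n w v) v := by
  rintro ⟨h1, h2⟩
  refine ⟨fun i hi => ?_, ?_⟩
  · rcases lt_or_ge i n with hin | hin
    · rw [← rep_congr h i hin, h1 i hi, h i hin]
    · unfold rep; rw [if_neg (by omega)]
  · rw [← S_congr ((rep_congr (n := n) (w := w) h).mono hM), h2, S_congr (h.mono hM)]

theorem valid_congr {w : List ℕ} {x x' : Ca} (h : agr w.length (jj x) (jj x')) :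
    valid w x ↔ valid w x' := by
  have key : ∀ x x' : Ca, agr w.length (jj x) (jj x') → valid w x → valid w x' := by
    rintro x x' h ⟨h1, h2, h3⟩
    exact ⟨h1, good_rep_iff le_rfl h h2, fun h4 => h3 (good_rep_iff (by omega) h.symm h4)⟩
  exact ⟨key x x' h, key x' x h.symm⟩

/-- put a `1` in front -/
def cs (y : Ca) : Ca := fun i => Nat.casesOn i true (fun j => y j)

def tl (y : Ca) : Ca := fun i => y (i + 1)

theorem tl_cs (y : Ca) : tl (cs y) = y := rfl

theorem cs_inj {y y' : Ca} (h : cs y = cs y') : y = y' := by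
  have := congrArg tl h
  simpa [tl_cs] using this

def cd (l t : ℕ) (x : Ca) : Ca := fun i => if i < l then true else lamC t x (i - l)

theorem cd_zero (t : ℕ) (x : Ca) : cd 0 t x = lamC t x := by
  funext i; simp [cd]

theorem cd_succ (l t : ℕ) (x : Ca) : cd (l + 1) t x = cs (cd l t x) := by
  funext i
  cases i with
  | zero => simp [cd, cs]
  | succ j =>
    show (if j + 1 < l + 1 then true else lamC t x (j + 1 - (l + 1))) =
      (if j < l then true else lamC t x (j - l))
    by_cases h : j < l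
    · rw [if_pos (by omega), if_pos h]
    · rw [if_neg (by omega), if_neg h]
      congr 1
      omega

theorem cs_ne (y : Ca) (t : ℕ) (x : Ca) : cs y ≠ lamC (t + 1) x := by
  intro h
  have := congrFun h 0
  simp [cs, lamC] at this

def Vd : ℕ → Set Ca
  | 0 => {y | ∃ t x, y = lamC (t + 1) x ∧ valid (wd t) x}
  | l + 1 => cs '' Vd l

theorem Vd_iff (l t : ℕ) (x : Ca) (m : ℕ) :
    cd l (t + 1) x ∈ Vd m ↔ m = l ∧ valid (wd t) x := by
  induction l generalizing m with
  | zero =>
    rw [cd_zero]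
    cases m with
    | zero =>
      constructor
      · rintro ⟨t', x', h1, h2⟩
        obtain ⟨h3, h4⟩ := lamC_inj h1
        have h5 : t = t' := by omega
        subst h5; subst h4
        exact ⟨rfl, h2⟩
      · rintro ⟨-, h⟩
        exact ⟨t, x, rfl, h⟩
    | succ m =>
      constructor
      · rintro ⟨y, -, h⟩
        exact absurd h (cs_ne y t x)
      · rintro ⟨h, -⟩
        omega
  | succ l ih =>
    rw [cd_succ]
    cases m with
    | zero =>
      constructor
      · rintro ⟨t', x', h1, h2⟩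
        exact absurd h1 (cs_ne _ _ _)
      · rintro ⟨h, -⟩
        omega
    | succ m =>
      constructor
      · rintro ⟨y, h1, h2⟩
        rw [cs_inj h2] at h1
        obtain ⟨h3, h4⟩ := (ih m).1 h1
        exact ⟨by omega, h4⟩
      · rintro ⟨h1, h2⟩
        exact ⟨_, (ih m).2 ⟨by omega, h2⟩, rfl⟩

def BB : Set Ca := {y | ∃ l, y ∈ Vd l}

/-- the explicit map -/
noncomputable def Ps (y : Ca) : Sq :=
  if h : ∃ t x, y = lamC (t + 1) x ∧ valid (wd t) x then
    rep (wd h.choose).length (wd h.choose) (jj h.choose_spec.choose)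
  else if y ∈ BB then jj (tl y) else jj y

theorem Ps_zero {t : ℕ} {x : Ca} (h : valid (wd t) x) :
    Ps (lamC (t + 1) x) = rep (wd t).length (wd t) (jj x) := by
  have h0 : ∃ t' x', lamC (t + 1) x = lamC (t' + 1) x' ∧ valid (wd t') x' := ⟨t, x, rfl, h⟩
  rw [Ps, dif_pos h0]
  have key : ∀ t' x', lamC (t + 1) x = lamC (t' + 1) x' →
      rep (wd t').length (wd t') (jj x') = rep (wd t).length (wd t) (jj x) := by
    intro t' x' h1
    obtain ⟨h3, h4⟩ := lamC_inj h1
    have h5 : t = t' := by omega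
    subst h5; subst h4
    rfl
  exact key _ _ h0.choose_spec.choose_spec.1

theorem Ps_B {y : Ca} (h0 : y ∉ Vd 0) (h : y ∈ BB) : Ps y = jj (tl y) := by
  have h0' : ¬ ∃ t x, y = lamC (t + 1) x ∧ valid (wd t) x := h0
  rw [Ps, dif_neg h0', if_pos h]

theorem Ps_nB {y : Ca} (h : y ∉ BB) : Ps y = jj y := by
  have h0 : ¬ ∃ t x, y = lamC (t + 1) x ∧ valid (wd t) x := fun h1 => h ⟨0, h1⟩
  rw [Ps, dif_neg h0, if_neg h]

theorem cs_tl_of_B {y : Ca} (h0 : y ∉ Vd 0) (h : y ∈ BB) : cs (tl y) = y ∧ tl y ∈ BB := by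
  obtain ⟨l, hl⟩ := h
  cases l with
  | zero => exact absurd hl h0
  | succ l =>
    obtain ⟨z, hz, rfl⟩ := hl
    rw [tl_cs]
    exact ⟨rfl, l, hz⟩

theorem rep_F0 {w : List ℕ} {x : Ca} (h : valid w x) : F0 (rep w.length w (jj x)) (jj x) :=
  ⟨w.length, h.2.1⟩

theorem rep_ne {w : List ℕ} {x y : Ca} (h : valid w x) : rep w.length w (jj x) ≠ jj y := by
  intro h1
  have h2 := rep_F0 h
  rw [h1] at h2
  have h3 := jj_F0 h2
  subst h3
  apply h.2.2
  rw [h1]
  exact ⟨fun _ _ => rfl, rfl⟩

theorem rep_inj {w w' : List ℕ} {x x' : Ca} (h : valid w x) (h' : valid w' x')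
    (he : rep w.length w (jj x) = rep w'.length w' (jj x')) : w = w' ∧ x = x' := by
  have h1 := rep_F0 h
  have h2 := rep_F0 h'
  rw [he] at h1
  have h3 := jj_F0 (h1.symm.trans h2)
  subst h3
  have h4 : w.length = w'.length := by
    rcases lt_trichotomy w.length w'.length with hl | hl | hl
    · exfalso
      apply h'.2.2
      rw [← he]
      exact good_mono h.2.1 (by omega)
    · exact hl
    · exfalso
      apply h.2.2
      rw [he]
      exact good_mono h'.2.1 (by omega)
  refine ⟨?_, rfl⟩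
  have h5 : pre (rep w.length w (jj x)) w.length = pre (rep w'.length w' (jj x)) w'.length := by
    rw [he, h4]
  rw [pre_rep _ _ rfl, pre_rep _ _ rfl] at h5
  exact h5

theorem wd_inj {t t' : ℕ} (h : wd t = wd t') : t = t' := by
  have := congrArg encode h
  simpa [wd] using this

theorem Ps_inj : Function.Injective Ps := by
  intro y y' h
  by_cases h0 : y ∈ Vd 0
  · obtain ⟨t, x, rfl, hv⟩ := h0
    rw [Ps_zero hv] at h
    by_cases h0' : y' ∈ Vd 0
    · obtain ⟨t', x', rfl, hv'⟩ := h0'
      rw [Ps_zero hv'] at h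
      obtain ⟨h1, h2⟩ := rep_inj hv hv' h
      rw [wd_inj h1, h2]
    · by_cases hB : y' ∈ BB
      · rw [Ps_B h0' hB] at h
        exact absurd h (rep_ne hv)
      · rw [Ps_nB hB] at h
        exact absurd h (rep_ne hv)
  · by_cases h0' : y' ∈ Vd 0
    · obtain ⟨t', x', rfl, hv'⟩ := h0'
      rw [Ps_zero hv'] at h
      by_cases hB : y ∈ BB
      · rw [Ps_B h0 hB] at h
        exact absurd h.symm (rep_ne hv')
      · rw [Ps_nB hB] at h
        exact absurd h.symm (rep_ne hv')
    · by_cases hB : y ∈ BB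
      · by_cases hB' : y' ∈ BB
        · rw [Ps_B h0 hB, Ps_B h0' hB'] at h
          rw [← (cs_tl_of_B h0 hB).1, ← (cs_tl_of_B h0' hB').1, jj_inj h]
        · rw [Ps_B h0 hB, Ps_nB hB'] at h
          have := jj_inj h
          rw [← this] at hB'
          exact absurd (cs_tl_of_B h0 hB).2 hB'
      · by_cases hB' : y' ∈ BB
        · rw [Ps_nB hB, Ps_B h0' hB'] at h
          have := jj_inj h
          rw [this] at hB
          exact absurd (cs_tl_of_B h0' hB').2 hB
        · rw [Ps_nB hB, Ps_nB hB'] at h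
          exact jj_inj h

theorem Ps_surj {u : Sq} {x : Ca} (h : F0 u (jj x)) : ∃ y, Ps y = u := by
  have hex : ∃ N, good N u (jj x) := h
  rcases Nat.eq_zero_or_pos (Nat.find hex) with h0 | h0
  · have h1 := Nat.find_spec hex
    rw [h0] at h1
    have h2 : u = jj x := funext fun i => h1.1 i (Nat.zero_le i)
    rw [h2]
    by_cases hB : x ∈ BB
    · refine ⟨cs x, ?_⟩
      have hB' : cs x ∈ BB := by
        obtain ⟨l, hl⟩ := hB
        exact ⟨l + 1, x, hl, rfl⟩
      have hn : cs x ∉ Vd 0 := by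
        rintro ⟨t, z, h3, -⟩
        exact cs_ne _ _ _ h3
      rw [Ps_B hn hB', tl_cs]
    · exact ⟨x, Ps_nB hB⟩
  · have h1 := Nat.find_spec hex
    have h2 : rep (Nat.find hex) (pre u (Nat.find hex)) (jj x) = u :=
      rep_pre _ _ _ (fun i hi => h1.1 i hi)
    have hw : wd (encode (pre u (Nat.find hex))) = pre u (Nat.find hex) := by simp [wd]
    have hv : valid (wd (encode (pre u (Nat.find hex)))) x := by
      rw [hw]
      unfold valid
      rw [length_pre, h2]
      exact ⟨h0, h1, Nat.find_min hex (by omega)⟩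
    refine ⟨lamC (encode (pre u (Nat.find hex)) + 1) x, ?_⟩
    rw [Ps_zero hv, hw, length_pre, h2]

theorem cs_tle (x : Ca) : tle (cs x) x := by
  apply tle_iff'.1
  have h1 : RecursiveIn {(o x : ℕ →. ℕ)} ((fun i => o x (i - 1) : Sq) : ℕ →. ℕ) :=
    rec_comp_primrec (rec_refl _) (Primrec.nat_sub.comp Primrec.id (Primrec.const 1))
  refine rec_trans (fin_mod (n := 1) ?_) h1
  intro i hi
  obtain ⟨j, rfl⟩ : ∃ j, i = j + 1 := ⟨i - 1, by omega⟩
  rfl

theorem tle_cs (x : Ca) : tle x (cs x) := by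
  apply tle_iff'.1
  have h1 : RecursiveIn {(o (cs x) : ℕ →. ℕ)} ((fun i => o (cs x) (i + 1) : Sq) : ℕ →. ℕ) :=
    rec_comp_primrec (rec_refl _) (Primrec.nat_add.comp Primrec.id (Primrec.const 1))
  exact h1

theorem Ps_FF (y : Ca) : FF (jj y) (Ps y) := by
  by_cases h0 : y ∈ Vd 0
  · obtain ⟨t, x, rfl, hv⟩ := h0
    rw [Ps_zero hv, FF_iff]
    exact Or.inr ⟨_, x, F0.refl _, rep_F0 hv, lamC_tle _ _, tle_lamC _ _⟩
  · by_cases hB : y ∈ BB
    · rw [Ps_B h0 hB, L1]
      obtain ⟨h1, -⟩ := cs_tl_of_B h0 hB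
      have h2 : EE (cs (tl y)) (tl y) := ⟨cs_tle _, tle_cs _⟩
      rw [h1] at h2
      exact h2
    · rw [Ps_nB hB]
      exact L1.2 (EE.refl _)

/-! ### Baire class one -/

/-- preimages of open sets are F-sigma -/
def Baire1 (f : Ca → Sq) : Prop :=
  ∀ U : Set Sq, IsOpen U → ∃ F : ℕ → Set Ca, (∀ n, IsClosed (F n)) ∧ f ⁻¹' U = ⋃ n, F n

theorem baire1_crit {ι : Type} [Countable ι] [Nonempty ι] {f : Ca → Sq} (Q : ι → Set Ca)
    (hQ : ∀ i, IsClosed (Q i))
    (h : ∀ y N, ∃ i, y ∈ Q i ∧ ∀ y' ∈ Q i, agr N (f y) (f y')) : Baire1 f := by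
  intro U hU
  obtain ⟨e, he⟩ := exists_surjective_nat ι
  refine ⟨fun n => if Q (e n) ⊆ f ⁻¹' U then Q (e n) else ∅, fun n => ?_, ?_⟩
  · dsimp only
    split_ifs
    · exact hQ _
    · exact isClosed_empty
  · ext y
    simp only [mem_iUnion]
    constructor
    · intro hy
      obtain ⟨N, hN⟩ := isOpen_iff_agr.1 hU (f y) hy
      obtain ⟨i, hi, hi'⟩ := h y N
      obtain ⟨n, rfl⟩ := he i
      refine ⟨n, ?_⟩
      rw [if_pos]
      · exact hi
      · intro y' hy'
        exact hN _ (hi' y' hy')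
    · rintro ⟨n, hn⟩
      by_cases hs : Q (e n) ⊆ f ⁻¹' U
      · rw [if_pos hs] at hn
        exact hs hn
      · rw [if_neg hs] at hn
        exact absurd hn (by simp)

theorem open_of_prefix {Q : Ca → Prop} (n : ℕ) (h : ∀ a b : Ca, (∀ i < n, b i = a i) → Q a → Q b) :
    IsOpen {a | Q a} := by
  rw [isOpen_iff_mem_nhds]
  intro a ha
  exact Filter.mem_of_superset ((cyl_open a n).mem_nhds (fun i _ => rfl))
    (fun b hb => h a b hb ha)

theorem closed_of_prefix {Q : Ca → Prop} (n : ℕ)
    (h : ∀ a b : Ca, (∀ i < n, b i = a i) → Q a → Q b) : IsClosed {a | Q a} := by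
  rw [← isOpen_compl_iff]
  exact open_of_prefix (Q := fun a => ¬ Q a) n
    (fun a b hab ha hb => ha (h b a (fun i hi => (hab i hi).symm) hb))

theorem closed_hit (a k v : ℕ) : IsClosed {x : Ca | hit x a k v} := by
  refine closed_of_prefix k ?_
  intro x y hab h
  exact hit_agr h (agr_o (fun i hi => (hab i hi).symm))

theorem open_hit (a k v : ℕ) : IsOpen {x : Ca | hit x a k v} := by
  refine open_of_prefix k ?_
  intro x y hab h
  exact hit_agr h (agr_o (fun i hi => (hab i hi).symm))

theorem closed_J (a v : ℕ) : IsClosed {x : Ca | J x a = v} := by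
  rcases Nat.eq_zero_or_pos v with rfl | hv
  · have : {x : Ca | J x a = 0} = (⋃ k, ⋃ v, {x : Ca | hit x a k v})ᶜ := by
      ext x
      simp only [mem_compl_iff, mem_iUnion]
      push Not
      exact J_zero
    rw [this]
    exact (isOpen_iUnion fun k => isOpen_iUnion fun v => open_hit a k v).isClosed_compl
  · obtain ⟨w, rfl⟩ : ∃ w, v = w + 1 := ⟨v - 1, by omega⟩
    have : {x : Ca | J x a = w + 1} = {x : Ca | hit x a w.unpair.1 w.unpair.2} := by
      ext x
      show J x a = w + 1 ↔ _
      conv_lhs => rw [← Nat.pair_unpair w]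
      exact J_hit
    rw [this]
    exact closed_hit _ _ _

theorem closed_jj (z : Ca) (N : ℕ) : IsClosed {x : Ca | agr N (jj z) (jj x)} := by
  have : {x : Ca | agr N (jj z) (jj x)} = ⋂ a, ⋂ (_ : a < N), {x : Ca | J x a = J z a} := by
    ext x
    simp only [mem_iInter]
    constructor
    · intro h a ha
      exact (jj_eq (h a ha)).symm
    · intro h a ha
      show 2 * J z a + 1 = 2 * J x a + 1
      rw [show J x a = J z a from h a ha]
  rw [this]
  exact isClosed_iInter fun a => isClosed_iInter fun _ => closed_J a _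

theorem closed_pre (N : ℕ) (s : List ℕ) : IsClosed {x : Ca | pre (jj x) N = s} := by
  by_cases h : ∃ z : Ca, pre (jj z) N = s
  · obtain ⟨z, rfl⟩ := h
    have : {x : Ca | pre (jj x) N = pre (jj z) N} = {x : Ca | agr N (jj z) (jj x)} := by
      ext x
      show pre (jj x) N = pre (jj z) N ↔ agr N (jj z) (jj x)
      rw [pre_eq_iff]
      exact ⟨fun h => h.symm, fun h => h.symm⟩
    rw [this]
    exact closed_jj z N
  · have : {x : Ca | pre (jj x) N = s} = ∅ := by
      ext x
      simp only [mem_empty_iff_false, iff_false]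
      exact fun hx => h ⟨x, hx⟩
    rw [this]
    exact isClosed_empty

def shc (k : ℕ) (y : Ca) : Ca := fun i => y (k + i)

theorem cont_shc (k : ℕ) : Continuous (shc k) :=
  continuous_pi fun i => continuous_apply (k + i)

theorem cont_tl : Continuous tl := continuous_pi fun i => continuous_apply (i + 1)

/-- the closed pieces -/
def QQ : (ℕ ⊕ Unit) ⊕ (List Bool × (ℕ × List ℕ) × (ℕ × List ℕ) × ℕ × (ℕ × List ℕ)) → Set Ca
  | Sum.inl (Sum.inl l) => {fun i => decide (i < l)}
  | Sum.inl (Sum.inr _) => {fun _ => true}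
  | Sum.inr ⟨s, a, b, k, c⟩ => {y | bpre y s.length = s} ∩ {y | pre (jj y) a.1 = a.2} ∩
      (tl ⁻¹' {y | pre (jj y) b.1 = b.2}) ∩ (shc k ⁻¹' {y | pre (jj y) c.1 = c.2})

theorem bpre_eq_iff {y y' : Ca} {n : ℕ} : bpre y n = bpre y' n ↔ ∀ i < n, y i = y' i := by
  constructor
  · intro h i hi
    have := congrArg (fun l => l[i]?) h
    simpa [bpre, hi] using this
  · intro h
    apply List.map_congr_left
    intro i hi
    exact h i (List.mem_range.1 hi)

theorem QQ_closed (i : (ℕ ⊕ Unit) ⊕ (List Bool × (ℕ × List ℕ) × (ℕ × List ℕ) × ℕ × (ℕ × List ℕ))) :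
    IsClosed (QQ i) := by
  rcases i with (l | u) | ⟨s, a, b, k, c⟩
  · exact isClosed_singleton
  · exact isClosed_singleton
  · refine ((IsClosed.inter ?_ (closed_pre _ _)).inter ((closed_pre _ _).preimage cont_tl)).inter
      ((closed_pre _ _).preimage (cont_shc k))
    refine closed_of_prefix s.length ?_
    intro x y hxy h
    have h' : bpre x s.length = s := h
    show bpre y s.length = s
    rw [← h']
    rw [length_bpre]
    exact bpre_eq_iff.2 hxy

theorem cd_form (y : Ca) : (∃ l t x, y = cd l (t + 1) x) ∨ (∃ l : ℕ, y = fun i => decide (i < l)) ∨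
    y = fun _ => true := by
  by_cases h1 : ∃ i, y i = false
  · have hl := Nat.find_spec h1
    have hl' : ∀ i < Nat.find h1, y i = true := by
      intro i hi
      have := Nat.find_min h1 hi
      simpa using this
    by_cases h2 : ∃ m, y (Nat.find h1 + m) = true
    · left
      have hm := Nat.find_spec h2
      have hm' : ∀ j < Nat.find h2, y (Nat.find h1 + j) = false := by
        intro j hj
        have := Nat.find_min h2 hj
        simpa using this
      have hpos : Nat.find h2 ≠ 0 := by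
        intro h0
        rw [h0, Nat.add_zero, hl] at hm
        exact absurd hm (by simp)
      obtain ⟨t, ht⟩ : ∃ t, Nat.find h2 = t + 1 := ⟨Nat.find h2 - 1, by omega⟩
      refine ⟨Nat.find h1, t, shc (Nat.find h1 + Nat.find h2 + 1) y, ?_⟩
      funext i
      unfold cd
      split_ifs with h3
      · exact hl' i h3
      · obtain ⟨j, rfl⟩ : ∃ j, i = Nat.find h1 + j := ⟨i - Nat.find h1, by omega⟩
        rw [Nat.add_sub_cancel_left]
        unfold lamC
        split_ifs with h4 h5
        · exact hm' j (by omega)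
        · rw [h5, ← ht]; exact hm
        · show y (Nat.find h1 + j) =
            y (Nat.find h1 + Nat.find h2 + 1 + (j - (t + 1 + 1)))
          congr 1
          omega
    · right; left
      refine ⟨Nat.find h1, ?_⟩
      funext i
      by_cases h3 : i < Nat.find h1
      · rw [hl' i h3]; simp [h3]
      · have h4 : y i = false := by
          by_contra h5
          apply h2
          refine ⟨i - Nat.find h1, ?_⟩
          rw [show Nat.find h1 + (i - Nat.find h1) = i by omega]
          simpa using h5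
        rw [h4]
        simp [h3]
  · right; right
    funext i
    by_contra h2
    apply h1
    exact ⟨i, by simpa using h2⟩

theorem cd_shc (l t : ℕ) (x : Ca) : shc (l + t + 2) (cd l (t + 1) x) = x := by
  funext i
  show cd l (t + 1) x (l + t + 2 + i) = x i
  unfold cd lamC
  rw [if_neg (by omega), if_neg (by omega), if_neg (by omega)]
  congr 1
  omega

theorem cd_of_pre {l t : ℕ} {x y : Ca} (h : ∀ i < l + t + 2, y i = cd l (t + 1) x i) :
    y = cd l (t + 1) (shc (l + t + 2) y) := by
  funext i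
  by_cases hi : i < l + t + 2
  · rw [h i hi]
    unfold cd lamC
    split_ifs <;> first | rfl | omega
  · unfold cd lamC
    rw [if_neg (by omega), if_neg (by omega), if_neg (by omega)]
    show y i = y (l + t + 2 + (i - l - (t + 1 + 1)))
    congr 1
    omega

theorem Ps_cd {l t : ℕ} {x : Ca} : Ps (cd l (t + 1) x) =
    if valid (wd t) x then (if l = 0 then rep (wd t).length (wd t) (jj x)
      else jj (tl (cd l (t + 1) x))) else jj (cd l (t + 1) x) := by
  split_ifs with h1 h2
  · subst h2
    rw [cd_zero]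
    exact Ps_zero h1
  · apply Ps_B
    · intro h3
      exact h2 ((Vd_iff l t x 0).1 h3).1.symm
    · exact ⟨l, (Vd_iff l t x l).2 ⟨rfl, h1⟩⟩
  · apply Ps_nB
    rintro ⟨m, hm⟩
    exact h1 ((Vd_iff l t x m).1 hm).2

theorem Ps_baire1 : Baire1 Ps := by
  apply baire1_crit QQ QQ_closed
  intro y N
  rcases cd_form y with ⟨l, t, x, rfl⟩ | ⟨l, rfl⟩ | rfl
  · refine ⟨Sum.inr ⟨bpre (cd l (t + 1) x) (l + t + 2), (N, pre (jj (cd l (t + 1) x)) N),
      (N, pre (jj (tl (cd l (t + 1) x))) N), l + t + 2,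
      ((wd t).length + N, pre (jj x) ((wd t).length + N))⟩, ?_, ?_⟩
    · refine ⟨⟨⟨?_, ?_⟩, ?_⟩, ?_⟩
      · show bpre _ (bpre _ _).length = _
        rw [length_bpre]
      · rfl
      · rfl
      · show pre (jj (shc (l + t + 2) (cd l (t + 1) x))) _ = _
        rw [cd_shc]
    · rintro y' ⟨⟨⟨h1, h2⟩, h3⟩, h4⟩
      have h1' : bpre y' (l + t + 2) = bpre (cd l (t + 1) x) (l + t + 2) := by
        have : bpre y' (bpre (cd l (t + 1) x) (l + t + 2)).length = _ := h1
        rwa [length_bpre] at this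
      have h5 := cd_of_pre (bpre_eq_iff.1 h1')
      have h2' : agr N (jj y') (jj (cd l (t + 1) x)) := pre_eq_iff.1 h2
      have h3' : agr N (jj (tl y')) (jj (tl (cd l (t + 1) x))) := pre_eq_iff.1 h3
      have h4' : agr ((wd t).length + N) (jj (shc (l + t + 2) y')) (jj x) := pre_eq_iff.1 h4
      have h6 : valid (wd t) x ↔ valid (wd t) (shc (l + t + 2) y') :=
        valid_congr (h4'.mono (by omega)).symm
      rw [h5] at h2' h3' ⊢
      rw [Ps_cd, Ps_cd]
      by_cases hv : valid (wd t) x
      · rw [if_pos hv, if_pos (h6.1 hv)]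
        split_ifs
        · exact rep_congr (h4'.mono (by omega)).symm
        · exact h3'.symm
      · rw [if_neg hv, if_neg (fun h => hv (h6.2 h))]
        exact h2'.symm
  · refine ⟨Sum.inl (Sum.inl l), rfl, ?_⟩
    intro y' hy'
    have : y' = fun i => decide (i < l) := hy'
    rw [this]
    exact agr.refl _ _
  · refine ⟨Sum.inl (Sum.inr ()), rfl, ?_⟩
    intro y' hy'
    have : y' = fun _ => true := hy'
    rw [this]
    exact agr.refl _ _

end Pool.Agent.H84R7
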