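import Pool.Agent.H84R7.Bc
import Pool.Agent.H84R6.Deg2

set_option autoImplicit false

namespace Pool.Agent.H84R7

open Encodable Classical Set
open Pool.Agent.H84R6 hiding rr rr_inj rr_EE rr_zz meas_rr rp meas_rp rp_inj rinv_ex psi psi_inj psi_E0 psi_not psi_zz zz meas_psi Req codes cc cc_spec PP C0 C1 wrd wrd_mem wrd_congr C_len C_pos C_ne blk_len wrd_len wrd_ge wrd_le ex_psi psi_tail psi_Req psi_blk fr force1 force2 Req_mono Req_dense all_req zz_ne ww

theorem baire1_meas {f : Ca → Sq} (h : Baire1 f) : Measurable f := by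
  apply measurable_of_isOpen
  intro U hU
  obtain ⟨F, hF, hU'⟩ := h U hU
  rw [hU']
  exact MeasurableSet.iUnion fun n => (hF n).measurableSet

theorem AA_ww {x : Ca} (hx : x ∈ AA) : tle ww x := by
  obtain ⟨k, u, -, h2⟩ := mem_AA.1 hx
  exact tle_trans (rr_ww k u) h2.1

theorem AA_zz {x : Ca} (hx : x ∈ AA) : ¬ tle zz x := by
  intro h
  obtain ⟨k, u, -, h2⟩ := mem_AA.1 hx
  exact rr_zz k u (tle_trans h h2.2)

theorem AA_meager : IsMeagre AA := IsMeagre.mono (fun _ hx => AA_ww hx) meager_cone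

theorem final : ∃ (G : Type) (_ : Group G) (_ : Countable G) (_ : MulAction G Sq),
    (∀ g : G, Continuous (fun y : Sq => g • y)) ∧
    ∃ Φ : Ca ≃ᵐ Sq, (∀ x y : Ca, (tle y x ∧ tle x y) ↔ ∃ g : G, g • Φ x = Φ y) ∧
      (∀ x ∉ AA, Φ x = Ps x) ∧ ∀ x ∉ AA, ∃ x1, tle x x1 ∧ tle x1 x ∧ F0 (Φ x) (jj x1) := by
  obtain ⟨G, i1', i2', i3', hc, hor, Φ0, key⟩ := main0
  refine ⟨G, i1', i2', i3', hc, ?_⟩
  let ph : Ca → Sq := fun x => if x ∈ AA then Φ0 x else Ps x
  have hin : ∀ x, x ∈ AA → ph x = Φ0 x := fun x hx => if_pos hx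
  have hout : ∀ x, x ∉ AA → ph x = Ps x := fun x hx => if_neg hx
  have hFF : ∀ x, FF (aa x) (ph x) := by
    intro x
    by_cases hx : x ∈ AA
    · rw [hin x hx]; exact key x
    · rw [hout x hx, aa, if_neg hx]; exact Ps_FF x
  have pmeas : Measurable ph :=
    Measurable.ite ms_AA Φ0.measurable (baire1_meas Ps_baire1)
  have pinj : Function.Injective ph := by
    intro x y h
    have hE : EE x y := by
      apply aa_inv
      have h1 := hFF x
      have h2 := hFF y
      rw [← h] at h2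
      exact h1.trans h2.symm
    by_cases hx : x ∈ AA
    · have hy := AA_sat hE hx
      rw [hin x hx, hin y hy] at h
      exact Φ0.injective h
    · have hy : y ∉ AA := fun hy => hx (AA_sat hE.symm hy)
      rw [hout x hx, hout y hy] at h
      exact Ps_inj h
  have psurj : Function.Surjective ph := by
    intro u
    have h1 := key (Φ0.symm u)
    have h2 : Φ0 (Φ0.symm u) = u := Φ0.apply_symm_apply u
    rw [h2] at h1
    by_cases hx : Φ0.symm u ∈ AA
    · exact ⟨Φ0.symm u, by rw [hin _ hx, h2]⟩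
    · rw [aa, if_neg hx] at h1
      have h3 : ∃ x, x ∉ AA ∧ F0 u (jj x) := by
        rcases FF_iff.1 h1 with h4 | ⟨x', y', h4, h5, h6⟩
        · exact ⟨_, hx, h4.symm⟩
        · refine ⟨y', fun hy => hx ?_, h5⟩
          rw [jj_F0 h4]
          exact AA_sat h6.symm hy
      obtain ⟨x, hxA, hxu⟩ := h3
      obtain ⟨z, hz⟩ := Ps_surj hxu
      have hzA : z ∉ AA := by
        intro hzA
        apply hxA
        have h4 : FF (jj z) (jj x) := (hz ▸ Ps_FF z : FF (jj z) u).trans (Or.inl hxu)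
        exact AA_sat (L1.1 h4) hzA
      exact ⟨z, by rw [hout z hzA, hz]⟩
  have pemb := pmeas.measurableEmbedding pinj
  let e := Equiv.ofBijective ph ⟨pinj, psurj⟩
  have einv : Measurable e.symm := by
    intro s hs
    have : e.symm ⁻¹' s = ph '' s := (e.image_eq_preimage_symm s).symm
    rw [this]
    exact pemb.measurableSet_image' hs
  refine ⟨⟨e, pmeas, einv⟩, ?_, fun x hx => hout x hx, ?_⟩
  · intro x y
    rw [hor]
    show _ ↔ FF (ph x) (ph y)
    constructor
    · rintro ⟨h1, h2⟩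
      exact (hFF x).symm.trans ((aa_eq (show EE x y from ⟨h2, h1⟩)).trans (hFF y))
    · intro h
      have h3 : EE x y := aa_inv ((hFF x).trans (FF.trans h (hFF y).symm))
      exact ⟨h3.2, h3.1⟩
  · intro x hx
    show ∃ x1, tle x x1 ∧ tle x1 x ∧ F0 (ph x) (jj x1)
    have h1 := hFF x
    rw [aa, if_neg hx] at h1
    rcases FF_iff.1 h1 with h2 | ⟨x', y', h2, h3, h4⟩
    · exact ⟨x, tle_refl x, tle_refl x, h2.symm⟩
    · have h5 := jj_F0 h2
      subst h5
      exact ⟨y', h4.1, h4.2, h3⟩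

end Pool.Agent.H84R7
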