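import Pool.Agent.H84R6.Psi

set_option autoImplicit false

namespace Pool.Agent.H84R7

open Encodable Classical
open Pool.Agent.H84R6 (Ca Sq o pre agr ph P GG ph_unique pre_eq_iff ex bpre ex_bpre ex_mono prefix_bpre length_bpre tle tle_iff' fin_mod app_prefix lift_prefix tle_trans tle_refl rec_comp_primrec rec_refl E0)

/-- join of two reals -/
def jn (x y : Ca) : Ca := fun n => if n % 2 = 0 then x (n / 2) else y (n / 2)

/-- the fixed parameter -/
noncomputable def ww : Ca := Pool.Agent.H84R6.zz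

theorem ex_jn {g g' : Ca} {n : ℕ} (h : ex (bpre g n) g') : agr n (o (jn g' ww)) (o (jn g ww)) := by
  intro i hi
  have h1 := ex_bpre h (i / 2) (by omega)
  unfold o at h1 ⊢
  unfold jn
  split_ifs
  · exact h1
  · rfl

/-- `h` is computed from `g` and the parameter -/
def Pw (e : ℕ) (g h : Ca) : Prop := P e (jn g ww) h

theorem force1 (e : ℕ) (s t : List Bool) : ∃ s' t', s <+: s' ∧ t <+: t' ∧
    ∀ g h, ex s' g → ex t' h → ¬ Pw e g h := by
  by_cases hc : ∃ g, ex s g ∧ ∃ v, ph e (o (jn g ww)) t.length v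
  · obtain ⟨g, hg, v, k, hk⟩ := hc
    refine ⟨bpre g (max k s.length), t ++ [decide (v = 0)], prefix_bpre hg (le_max_right _ _),
      List.prefix_append _ _, ?_⟩
    intro g' h' hg' hh' hP
    have h1 : ph e (o (jn g' ww)) t.length v := by
      refine ⟨k, ?_⟩
      rw [pre_eq_iff.2 ((ex_jn hg').mono (le_max_left _ _))]
      exact hk
    have h2 := ph_unique (hP t.length) h1
    have h3 := hh' t.length (by simp)
    simp only [List.getElem_append_right (le_refl t.length), Nat.sub_self,
      List.getElem_cons_zero] at h3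
    unfold o at h2
    rw [h3] at h2
    by_cases hv : v = 0
    · simp [hv] at h2
    · simp [hv] at h2; exact hv h2.symm
  · refine ⟨s, t, List.prefix_rfl, List.prefix_rfl, fun g h hg hh hP => ?_⟩
    exact hc ⟨g, hg, _, hP t.length⟩

/-- the forced reals -/
noncomputable def fr (p : ℕ × List Bool) : Ca := fun n =>
  decide (∃ g, ex p.2 g ∧ ph p.1 (o (jn g ww)) n 1)

noncomputable def zz : Ca := fun n => ((decode (α := ℕ × List Bool) n).map (fun p => !(fr p n))).getD false

theorem zz_ne (p : ℕ × List Bool) : ∃ n, zz n ≠ fr p n := by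
  refine ⟨encode p, ?_⟩
  have h : zz (encode p) = !(fr p (encode p)) := by
    unfold zz
    rw [encodek]
    rfl
  rw [h]
  cases fr p (encode p) <;> simp

theorem force2 (e : ℕ) (s : List Bool) : ∃ s', s <+: s' ∧ ∀ g, ex s' g → ¬ Pw e g zz := by
  obtain ⟨n, hn⟩ := zz_ne (e, s)
  by_cases hc : ∃ g, ex s g ∧ ph e (o (jn g ww)) n 1
  · have h1 : fr (e, s) n = true := decide_eq_true hc
    have h2 : zz n = false := by
      rw [h1] at hn; simpa using hn
    obtain ⟨g, hg, k, hk⟩ := hc
    refine ⟨bpre g (max k s.length), prefix_bpre hg (le_max_right _ _), fun g' hg' hP => ?_⟩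
    have h3 : ph e (o (jn g' ww)) n 1 := by
      refine ⟨k, ?_⟩
      rw [pre_eq_iff.2 ((ex_jn hg').mono (le_max_left _ _))]
      exact hk
    have h4 := ph_unique (hP n) h3
    unfold o at h4
    rw [h2] at h4
    exact absurd h4 (by simp)
  · have h1 : fr (e, s) n = false := decide_eq_false hc
    have h2 : zz n = true := by
      rw [h1] at hn; simpa using hn
    refine ⟨s, List.prefix_rfl, fun g hg hP => hc ⟨g, hg, ?_⟩⟩
    have h3 := hP n
    have h4 : o zz n = 1 := by unfold o; rw [h2]; rfl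
    rwa [h4] at h3

/-- the requirement -/
def Req (i : List Bool × List Bool × ℕ) (a b : List Bool) : Prop :=
  (∀ g h, ex (i.1 ++ a) g → ex (i.2.1 ++ b) h → ¬ Pw i.2.2 g h) ∧
  (∀ g h, ex (i.1 ++ a) g → ex (i.2.1 ++ b) h → ¬ Pw i.2.2 h g) ∧
  (∀ g, ex (i.1 ++ a) g → ¬ Pw i.2.2 g zz) ∧ (∀ h, ex (i.2.1 ++ b) h → ¬ Pw i.2.2 h zz)

theorem app_prefix (s : List Bool) {a a' : List Bool} (h : a <+: a') : s ++ a <+: s ++ a' := by
  obtain ⟨r, rfl⟩ := h
  exact ⟨r, by simp⟩

theorem Req_mono {i : List Bool × List Bool × ℕ} {a b a' b' : List Bool} (h : a <+: a')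
    (h' : b <+: b') (hR : Req i a b) : Req i a' b' := by
  obtain ⟨h1, h2, h3, h4⟩ := hR
  refine ⟨fun g k hg hk => h1 g k (ex_mono (app_prefix _ h) hg) (ex_mono (app_prefix _ h') hk),
    fun g k hg hk => h2 g k (ex_mono (app_prefix _ h) hg) (ex_mono (app_prefix _ h') hk),
    fun g hg => h3 g (ex_mono (app_prefix _ h) hg),
    fun g hg => h4 g (ex_mono (app_prefix _ h') hg)⟩

theorem lift_prefix {s a t : List Bool} (h : s ++ a <+: t) : ∃ a', a <+: a' ∧ s ++ a' = t := by
  obtain ⟨r, rfl⟩ := h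
  exact ⟨a ++ r, List.prefix_append _ _, by simp⟩

theorem Req_dense (i : List Bool × List Bool × ℕ) (a b : List Bool) :
    ∃ a' b', a <+: a' ∧ b <+: b' ∧ Req i a' b' := by
  obtain ⟨s1, t1, h1, h1', k1⟩ := force1 i.2.2 (i.1 ++ a) (i.2.1 ++ b)
  obtain ⟨a1, p1, rfl⟩ := lift_prefix h1
  obtain ⟨b1, q1, rfl⟩ := lift_prefix h1'
  obtain ⟨t2, s2, h2, h2', k2⟩ := force1 i.2.2 (i.2.1 ++ b1) (i.1 ++ a1)
  obtain ⟨a2, p2, rfl⟩ := lift_prefix h2'
  obtain ⟨b2, q2, rfl⟩ := lift_prefix h2
  obtain ⟨s3, h3, k3⟩ := force2 i.2.2 (i.1 ++ a2)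
  obtain ⟨a3, p3, rfl⟩ := lift_prefix h3
  obtain ⟨t3, h3', k3'⟩ := force2 i.2.2 (i.2.1 ++ b2)
  obtain ⟨b3, q3, rfl⟩ := lift_prefix h3'
  refine ⟨a3, b3, p1.trans (p2.trans p3), q1.trans (q2.trans q3), ?_, ?_, k3, k3'⟩
  · intro g h hg hh
    exact k1 g h (ex_mono (app_prefix _ (p2.trans p3)) hg) (ex_mono (app_prefix _ (q2.trans q3)) hh)
  · intro g h hg hh
    exact k2 h g (ex_mono (app_prefix _ q3) hh) (ex_mono (app_prefix _ p3) hg)

theorem all_req (L : List (List Bool × List Bool × ℕ)) (a b : List Bool) :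
    ∃ a' b', a <+: a' ∧ b <+: b' ∧ ∀ i ∈ L, Req i a' b' := by
  induction L with
  | nil => exact ⟨a, b, List.prefix_rfl, List.prefix_rfl, by simp⟩
  | cons i L ih =>
    obtain ⟨a1, b1, h1, h2, h3⟩ := ih
    obtain ⟨a2, b2, h4, h5, h6⟩ := Req_dense i a1 b1
    refine ⟨a2, b2, h1.trans h4, h2.trans h5, ?_⟩
    intro j hj
    rcases List.mem_cons.1 hj with rfl | hj
    · exact h6
    · exact Req_mono h4 h5 (h3 j hj)

theorem codes (n : ℕ) (Pn : List (List Bool)) : ∃ c : List Bool × List Bool,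
    c.1.length = c.2.length ∧ 0 < c.1.length ∧ c.1 ≠ c.2 ∧
    ∀ s ∈ Pn, ∀ t ∈ Pn, ∀ e ≤ n, Req (s, t, e) c.1 c.2 := by
  obtain ⟨a, b, h1, h2, h3⟩ := all_req
    (Pn.flatMap fun s => Pn.flatMap fun t => (List.range (n + 1)).map fun e => (s, t, e))
    [false] [true]
  let m := max a.length b.length
  let a' := a ++ List.replicate (m - a.length) false
  let b' := b ++ List.replicate (m - b.length) false
  have ha : a <+: a' := List.prefix_append _ _
  have hb : b <+: b' := List.prefix_append _ _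
  have la : a'.length = m := by simp [a', m]
  have lb : b'.length = m := by simp [b', m]
  have hpos : 0 < a'.length := by
    have h0 := (h1.trans ha).length_le
    simp only [List.length_singleton] at h0
    omega
  refine ⟨(a', b'), by rw [la, lb], hpos, ?_, ?_⟩
  · intro h
    have e1 := (h1.trans ha).getElem (i := 0) (by simp)
    have e2 := (h2.trans hb).getElem (i := 0) (by simp)
    have h' : a' = b' := h
    simp only [List.getElem_cons_zero] at e1 e2
    simp only [h'] at e1
    rw [← e2] at e1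
    exact absurd e1 (by simp)
  · intro s hs t ht e he
    apply Req_mono ha hb
    apply h3
    simp only [List.mem_flatMap, List.mem_map, List.mem_range]
    exact ⟨s, hs, t, ht, e, by omega, rfl⟩

noncomputable def cc (n : ℕ) (Pn : List (List Bool)) : List Bool × List Bool := (codes n Pn).choose

theorem cc_spec (n : ℕ) (Pn : List (List Bool)) : (cc n Pn).1.length = (cc n Pn).2.length ∧
    0 < (cc n Pn).1.length ∧ (cc n Pn).1 ≠ (cc n Pn).2 ∧
    ∀ s ∈ Pn, ∀ t ∈ Pn, ∀ e ≤ n, Req (s, t, e) (cc n Pn).1 (cc n Pn).2 := (codes n Pn).choose_spec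

noncomputable def PP : ℕ → List (List Bool)
  | 0 => [[]]
  | n + 1 => (PP n).flatMap fun s => [s ++ (cc n (PP n)).1, s ++ (cc n (PP n)).2]

noncomputable def C0 (n : ℕ) : List Bool := (cc n (PP n)).1
noncomputable def C1 (n : ℕ) : List Bool := (cc n (PP n)).2

noncomputable def wrd (a : Ca) : ℕ → List Bool
  | 0 => []
  | n + 1 => wrd a n ++ (if a n then C1 n else C0 n)

theorem wrd_mem (a : Ca) (n : ℕ) : wrd a n ∈ PP n := by
  induction n with
  | zero => simp [wrd, PP]
  | succ n ih =>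
    rw [PP, List.mem_flatMap]
    refine ⟨wrd a n, ih, ?_⟩
    rw [wrd]
    split_ifs
    · simp [C1]
    · simp [C0]

theorem C_len (n : ℕ) : (C0 n).length = (C1 n).length := (cc_spec n (PP n)).1
theorem C_pos (n : ℕ) : 0 < (C0 n).length := (cc_spec n (PP n)).2.1
theorem C_ne (n : ℕ) : C0 n ≠ C1 n := (cc_spec n (PP n)).2.2.1

theorem blk_len (a : Ca) (n : ℕ) : (if a n then C1 n else C0 n).length = (C0 n).length := by
  split_ifs
  · exact (C_len n).symm
  · rfl

theorem wrd_len (a b : Ca) (n : ℕ) : (wrd a n).length = (wrd b n).length := by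
  induction n with
  | zero => rfl
  | succ n ih => rw [wrd, wrd, List.length_append, List.length_append, ih, blk_len, blk_len]

theorem wrd_ge (a : Ca) (n : ℕ) : n ≤ (wrd a n).length := by
  induction n with
  | zero => simp
  | succ n ih =>
    rw [wrd, List.length_append, blk_len]
    have := C_pos n
    omega

theorem wrd_le (a : Ca) {n m : ℕ} (h : n ≤ m) : wrd a n <+: wrd a m := by
  induction m, h using Nat.le_induction with
  | base => exact List.prefix_rfl
  | succ k _ ih => exact ih.trans (by rw [wrd]; exact List.prefix_append _ _)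

theorem wrd_congr {a b : Ca} {n : ℕ} (h : ∀ i < n, a i = b i) : wrd a n = wrd b n := by
  induction n with
  | zero => rfl
  | succ n ih => rw [wrd, wrd, ih (fun i hi => h i (by omega)), h n (by omega)]

noncomputable def psi (a : Ca) : Ca := fun i => (wrd a (i + 1)).getD i false

theorem ex_psi (a : Ca) (n : ℕ) : ex (wrd a n) (psi a) := by
  intro i hi
  have h1 := wrd_ge a (i + 1)
  have h2 : i < (wrd a (i + 1)).length := by omega
  unfold psi
  rw [List.getD_eq_getElem _ _ h2]
  rcases le_total n (i + 1) with h | h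
  · exact ((wrd_le a h).getElem hi).symm
  · exact (wrd_le a h).getElem h2

theorem ex_eq {s t : List Bool} {g : Ca} (hl : s.length = t.length) (hs : ex s g) (ht : ex t g) :
    s = t := by
  apply List.ext_getElem hl
  intro i h1 h2
  rw [← hs i h1, ← ht i h2]

theorem psi_inj : Function.Injective psi := by
  intro a b h
  funext n
  have h1 := ex_psi a (n + 1)
  have h2 := ex_psi b (n + 1)
  rw [← h] at h2
  have h3 := ex_eq (wrd_len a b (n + 1)) h1 h2
  rw [wrd, wrd] at h3
  have h4 := List.append_inj_right h3 (wrd_len a b n)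
  by_cases ha : a n = true <;> by_cases hb : b n = true
  · rw [ha, hb]
  · rw [if_pos ha, if_neg hb] at h4
    exact absurd h4.symm (C_ne n)
  · rw [if_neg ha, if_pos hb] at h4
    exact absurd h4 (C_ne n)
  · rw [Bool.eq_false_of_not_eq_true ha, Bool.eq_false_of_not_eq_true hb]


theorem psi_tail {a b : Ca} {n : ℕ} (h : ∀ i, n ≤ i → a i = b i) (i : ℕ)
    (hi : (wrd a n).length ≤ i) : psi a i = psi b i := by
  have key : ∀ m, n ≤ m → ∃ r, wrd a m = wrd a n ++ r ∧ wrd b m = wrd b n ++ r := by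
    intro m hm
    induction m, hm using Nat.le_induction with
    | base => exact ⟨[], by simp, by simp⟩
    | succ k hk ih =>
      obtain ⟨r, h1, h2⟩ := ih
      refine ⟨r ++ (if a k then C1 k else C0 k), ?_, ?_⟩
      · rw [wrd, h1, List.append_assoc]
      · rw [wrd, h2, List.append_assoc, h k hk]
  obtain ⟨r, h1, h2⟩ := key (max n (i + 1)) (le_max_left _ _)
  have g1 := wrd_ge a (max n (i + 1))
  have g2 := wrd_ge b (max n (i + 1))
  have h3 := ex_psi a (max n (i + 1)) i (by omega)
  have h4 := ex_psi b (max n (i + 1)) i (by omega)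
  rw [h3, h4]
  have hl := wrd_len a b n
  have e1 : (wrd a (max n (i + 1)))[i]? = r[i - (wrd a n).length]? := by
    rw [h1, List.getElem?_append_right hi]
  have e2 : (wrd b (max n (i + 1)))[i]? = r[i - (wrd a n).length]? := by
    rw [h2, List.getElem?_append_right (by omega), hl]
  have e3 := e1.trans e2.symm
  rw [List.getElem?_eq_getElem (by omega), List.getElem?_eq_getElem (by omega)] at e3
  exact Option.some.inj e3

theorem psi_E0 {a b : Ca} (h : E0 a b) : tle (jn (psi a) ww) (jn (psi b) ww) := by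
  obtain ⟨n, hn⟩ := h
  apply tle_iff'.1
  apply fin_mod (n := 2 * (wrd a n).length)
  intro i hi
  unfold o jn
  rw [psi_tail hn (i / 2) (by omega)]

theorem psi_Req (n e : ℕ) (he : e ≤ n) (s t : List Bool) (hs : s ∈ PP n) (ht : t ∈ PP n) :
    Req (s, t, e) (C0 n) (C1 n) := (cc_spec n (PP n)).2.2.2 s hs t ht e he

theorem psi_blk (a : Ca) (n : ℕ) : (a n = true → ex (wrd a n ++ C1 n) (psi a)) ∧
    (a n = false → ex (wrd a n ++ C0 n) (psi a)) := by
  have h := ex_psi a (n + 1)
  rw [wrd] at h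
  refine ⟨fun h1 => ?_, fun h1 => ?_⟩
  · rwa [if_pos h1] at h
  · rwa [if_neg (by rw [h1]; simp)] at h

theorem psi_not {a b : Ca} (h : ¬ E0 a b) : ¬ tle (psi b) (jn (psi a) ww) := by
  rintro ⟨e, he⟩
  have h1 : ∃ n, e ≤ n ∧ a n ≠ b n := by
    by_contra hc
    push Not at hc
    exact h ⟨e, hc⟩
  obtain ⟨n, hn, hab⟩ := h1
  cases ha : a n
  · have hb : b n = true := by
      rw [ha] at hab
      cases hb : b n
      · exact absurd hb.symm hab
      · rfl
    exact (psi_Req n e hn _ _ (wrd_mem a n) (wrd_mem b n)).1 _ _ ((psi_blk a n).2 ha)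
      ((psi_blk b n).1 hb) he
  · have hb : b n = false := by
      rw [ha] at hab
      cases hb : b n
      · rfl
      · exact absurd hb.symm hab
    exact (psi_Req n e hn _ _ (wrd_mem b n) (wrd_mem a n)).2.1 _ _ ((psi_blk b n).2 hb)
      ((psi_blk a n).1 ha) he

theorem psi_zz (a : Ca) : ¬ tle zz (jn (psi a) ww) := by
  rintro ⟨e, he⟩
  cases ha : a e
  · exact (psi_Req e e le_rfl _ _ (wrd_mem a e) (wrd_mem a e)).2.2.1 _ ((psi_blk a e).2 ha) he
  · exact (psi_Req e e le_rfl _ _ (wrd_mem a e) (wrd_mem a e)).2.2.2 _ ((psi_blk a e).1 ha) he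

theorem jn_left (x y : Ca) : tle x (jn x y) := by
  apply tle_iff'.1
  have h1 := rec_comp_primrec (g := o (jn x y)) (rec_refl _)
    (Primrec.nat_mul.comp (Primrec.const 2) Primrec.id)
  have h2 : (fun n => o (jn x y) (2 * id n) : Sq) = o x := by
    funext i
    show (jn x y (2 * i)).toNat = (x i).toNat
    unfold jn
    rw [if_pos (by omega)]
    congr 2
    omega
  rw [h2] at h1
  exact h1

theorem jn_right (x y : Ca) : tle y (jn x y) := by
  apply tle_iff'.1
  have h1 := rec_comp_primrec (g := o (jn x y)) (rec_refl _)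
    (Primrec.succ.comp (Primrec.nat_mul.comp (Primrec.const 2) Primrec.id))
  have h2 : (fun n => o (jn x y) (Nat.succ (2 * id n)) : Sq) = o y := by
    funext i
    show (jn x y (2 * i + 1)).toNat = (y i).toNat
    unfold jn
    rw [if_neg (by omega)]
    congr 2
    omega
  rw [h2] at h1
  exact h1

end Pool.Agent.H84R7
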