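import Pool.Agent.H84R6.Meas
import Pool.Agent.H84R7.Psi

set_option autoImplicit false

namespace Pool.Agent.H84R7

open Encodable Classical Set
open Pool.Agent.H84R6 hiding rr rr_inj rr_EE rr_zz meas_rr rp meas_rp rp_inj rinv_ex psi psi_inj psi_E0 psi_not psi_zz zz meas_psi Req codes cc cc_spec PP C0 C1 wrd wrd_mem wrd_congr C_len C_pos C_ne blk_len wrd_len wrd_ge wrd_le ex_psi psi_tail psi_Req psi_blk fr force1 force2 Req_mono Req_dense all_req zz_ne

noncomputable def rr (k : ℕ) (u : Sq) : Ca := jn (psi (cf k u)) ww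

theorem jn_inj {x x' : Ca} (h : jn x ww = jn x' ww) : x = x' := by
  funext i
  have := congrFun h (2 * i)
  unfold jn at this
  rw [if_pos (by omega), if_pos (by omega)] at this
  have e : 2 * i / 2 = i := by omega
  rwa [e] at this

theorem rr_inj {k l : ℕ} {u v : Sq} (h : rr k u = rr l v) : k = l ∧ u = v :=
  cf_inj (psi_inj (jn_inj h))

theorem rr_EE {k l : ℕ} {u v : Sq} : EE (rr k u) (rr l v) ↔ k = l ∧ F0 u v := by
  rw [← cf_E0]
  constructor
  · intro h
    by_contra hc
    exact psi_not hc (tle_trans (jn_left _ _) h.2)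
  · intro h
    refine ⟨psi_E0 h, psi_E0 ?_⟩
    obtain ⟨n, hn⟩ := h
    exact ⟨n, fun i hi => (hn i hi).symm⟩

theorem rr_zz (k : ℕ) (u : Sq) : ¬ tle zz (rr k u) := psi_zz _

theorem rr_ww (k : ℕ) (u : Sq) : tle ww (rr k u) := jn_right _ _

theorem meas_psi : Measurable psi := by
  refine measurable_pi_lambda _ fun i => ?_
  refine meas_pre _ (i + 1) ?_
  intro a b hab
  unfold psi
  rw [wrd_congr hab]

theorem meas_jn : Measurable (fun x : Ca => jn x ww) := by
  refine measurable_pi_lambda _ fun i => ?_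
  refine meas_pre _ (i + 1) ?_
  intro a b hab
  unfold jn
  rw [hab (i / 2) (by omega)]

theorem meas_rr (k : ℕ) : Measurable (rr k) := meas_jn.comp (meas_psi.comp (meas_cf k))

noncomputable def rp (p : ℕ × Sq) : Ca := rr p.1 p.2

theorem meas_rp : Measurable rp :=
  measurable_from_prod_countable_right fun k => meas_rr k

theorem rp_inj : Function.Injective rp := by
  rintro ⟨k, u⟩ ⟨l, v⟩ h
  obtain ⟨h1, h2⟩ := rr_inj h
  exact Prod.ext h1 h2

theorem rinv_ex : ∃ g : Ca → ℕ × Sq, Measurable g ∧ g ∘ rp = id :=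
  (meas_rp.measurableEmbedding rp_inj).exists_measurable_extend measurable_id
    (fun _ => inferInstance)

theorem open_cyl {U : Set Ca} (hU : IsOpen U) {x : Ca} (hx : x ∈ U) :
    ∃ n, ∀ y : Ca, (∀ i < n, y i = x i) → y ∈ U := by
  obtain ⟨v, ⟨z, n, rfl⟩, hxv, hvU⟩ :=
    (PiNat.isTopologicalBasis_cylinders (fun _ => Bool)).exists_subset_of_mem_open hx hU
  refine ⟨n, fun y hy => hvU ?_⟩
  intro i hi
  exact (hy i hi).trans (hxv i hi)

theorem cyl_open (x : Ca) (n : ℕ) : IsOpen {y : Ca | ∀ i < n, y i = x i} :=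
  PiNat.isOpen_cylinder _ x n

/-- the cone above the parameter is meager -/
theorem meager_cone : IsMeagre {x : Ca | tle ww x} := by
  have h1 : {x : Ca | tle ww x} = ⋃ e, {x : Ca | P e x ww} := by
    ext x
    simp only [mem_iUnion]
    rfl
  rw [h1]
  refine isMeagre_iUnion fun e => ?_
  apply IsNowhereDense.isMeagre
  show interior (closure {x : Ca | P e x ww}) = ∅
  by_contra hne
  obtain ⟨x, hx⟩ := Set.nonempty_iff_ne_empty.2 hne
  obtain ⟨n, hn⟩ := open_cyl isOpen_interior hx
  obtain ⟨s, hs, hs'⟩ := Pool.Agent.H84R6.force2 e (bpre x n)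
  let g : Ca := fun i => s.getD i false
  have hg : ex s g := by
    intro i hi
    show s.getD i false = s[i]
    rw [List.getD_eq_getElem _ _ hi]
  have h2 : g ∈ closure {x : Ca | P e x ww} := by
    apply interior_subset
    apply hn
    intro i hi
    have h3 := ex_mono hs hg i (by simpa using hi)
    simpa [bpre] using h3
  obtain ⟨y, hy1, hy2⟩ := mem_closure_iff.1 h2 _ (cyl_open g s.length) (fun i _ => rfl)
  refine hs' y ?_ hy2
  intro i hi
  rw [hy1 i hi]
  exact hg i hi

end Pool.Agent.H84R7
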